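import Pool.Agent.Helper37.OF.St

/-!
# Project OF (MP_121524_al), module ACT: the wreath product action
-/

set_option autoImplicit false

namespace Pool.Agent.Helper19.OF

open Pool.Agent.Helper37.OF Monoid Pool.Agent.Helper4.FS

universe u v w x y

section

variable {A : Type u} {Q : Type x} {G : Type w} [Group A] [Group Q] [Group G]

theorem cc_mem (π : A →* Q) {s : Q → A} (hs : Sec π s) (a : A) (q : Q) :
    (s (π a * q))⁻¹ * a * s q ∈ π.ker := by
  rw [MonoidHom.mem_ker, map_mul, map_mul, map_inv, hs.1 a q]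
  group

theorem cc_eq (π : A →* Q) (f : π.ker →* G) {s : Q → A} (hs : Sec π s) (a : A) (q : Q) :
    cc π f s a q = f ⟨_, cc_mem π hs a q⟩ := by
  unfold cc
  rw [dif_pos (cc_mem π hs a q)]

theorem cc_mul (π : A →* Q) (f : π.ker →* G) {s : Q → A} (hs : Sec π s) (a b : A) (q : Q) :
    cc π f s (a * b) q = cc π f s a (π b * q) * cc π f s b q := by
  rw [cc_eq π f hs, cc_eq π f hs, cc_eq π f hs, ← map_mul]
  congr 1
  apply Subtype.ext
  change (s (π (a * b) * q))⁻¹ * (a * b) * s q =
    (s (π a * (π b * q)))⁻¹ * a * s (π b * q) * ((s (π b * q))⁻¹ * b * s q)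
  rw [map_mul, mul_assoc (π a)]
  group

/-- A cocycle gives an action on the product. -/
theorem exists_perm {M : Type y} [Group M] (π : A →* Q) (c : A → Q → M)
    (hc : ∀ a b q, c (a * b) q = c a (π b * q) * c b q) :
    ∃ Φ : A →* Equiv.Perm (M × Q), ∀ a y q, Φ a (y, q) = (c a q * y, π a * q) := by
  have h1 : ∀ q, c 1 q = 1 := by
    intro q
    have h := hc 1 1 q
    rw [mul_one, map_one, one_mul] at h
    exact (mul_eq_left.1 h.symm)
  have hinv : ∀ a q, c a⁻¹ (π a * q) * c a q = 1 := by
    intro a q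
    rw [← hc, inv_mul_cancel, h1]
  have hinv' : ∀ a q, c a (π a⁻¹ * q) * c a⁻¹ q = 1 := by
    intro a q
    rw [← hc, mul_inv_cancel, h1]
  refine ⟨{ toFun := fun a =>
              { toFun := fun p => (c a p.2 * p.1, π a * p.2)
                invFun := fun p => (c a⁻¹ p.2 * p.1, π a⁻¹ * p.2)
                left_inv := ?_
                right_inv := ?_ }
            map_one' := ?_
            map_mul' := ?_ }, ?_⟩
  · rintro ⟨y, q⟩
    apply Prod.ext
    · change c a⁻¹ (π a * q) * (c a q * y) = y
      rw [← mul_assoc, hinv, one_mul]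
    · change π a⁻¹ * (π a * q) = q
      rw [map_inv, inv_mul_cancel_left]
  · rintro ⟨y, q⟩
    apply Prod.ext
    · change c a (π a⁻¹ * q) * (c a⁻¹ q * y) = y
      rw [← mul_assoc, hinv', one_mul]
    · change π a * (π a⁻¹ * q) = q
      rw [map_inv, mul_inv_cancel_left]
  · apply Equiv.ext
    rintro ⟨y, q⟩
    apply Prod.ext
    · change c 1 q * y = y
      rw [h1, one_mul]
    · change π 1 * q = q
      rw [map_one, one_mul]
  · intro a b
    apply Equiv.ext
    rintro ⟨y, q⟩
    apply Prod.ext
    · change c (a * b) q * y = c a (π b * q) * (c b q * y)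
      rw [hc, mul_assoc]
    · change π (a * b) * q = π a * (π b * q)
      rw [map_mul, mul_assoc]
  · intro a y q
    rfl

end

theorem hACT : StACT.{u, v, w, x} := by
  intro A B Q G _ _ _ _ M _ πA πB f g s s' hs hs' τ jj
  obtain ⟨ΦA, hA⟩ := exists_perm πA (fun a q => jj (ofi none (cc πA f s a q))) (by
    intro a b q
    change jj (ofi none (cc πA f s (a * b) q)) =
      jj (ofi none (cc πA f s a (πA b * q))) * jj (ofi none (cc πA f s b q))
    rw [cc_mul πA f hs, ofi_mul, map_mul])
  obtain ⟨ΦB, hB⟩ := exists_perm πB (fun b q => jj (ofi (some (πB b * q)) τ *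
      ofi none (cc πB g s' b q) * (ofi (some q) τ)⁻¹)) (by
    intro a b q
    change jj (ofi (some (πB (a * b) * q)) τ * ofi none (cc πB g s' (a * b) q) *
        (ofi (some q) τ)⁻¹) =
      jj (ofi (some (πB a * (πB b * q))) τ * ofi none (cc πB g s' a (πB b * q)) *
        (ofi (some (πB b * q)) τ)⁻¹) *
      jj (ofi (some (πB b * q)) τ * ofi none (cc πB g s' b q) * (ofi (some q) τ)⁻¹)
    rw [cc_mul πB g hs', ofi_mul, ← map_mul, map_mul πB, mul_assoc (πB a)]
    congr 1
    group)
  refine ⟨Coprod.lift ΦA ΦB, ?_, ?_, ?_⟩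
  · intro a y q
    rw [Coprod.lift_apply_inl]
    exact hA a y q
  · intro b y q
    rw [Coprod.lift_apply_inr]
    exact hB b y q
  · intro l
    induction l with
    | nil =>
      intro y q
      rw [wd_nil, map_one, map_one, one_mul]
      change (y, q) = (jj (Wq τ []) * y, q)
      have h0 : (Wq τ ([] : List (G × Q × G × Q))) = 1 := rfl
      rw [h0, map_one, one_mul]
    | cons p l ih =>
      intro y q
      have hW : Wq τ (bl πA πB f g s s' (p :: l) q) =
          ofi none (cc πA f s p.1 (πB p.2 * (Coprod.lift πA πB (wd l) * q))) *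
            ofi (some (πB p.2 * (Coprod.lift πA πB (wd l) * q))) τ *
            ofi none (cc πB g s' p.2 (Coprod.lift πA πB (wd l) * q)) *
            (ofi (some (Coprod.lift πA πB (wd l) * q)) τ)⁻¹ *
            Wq τ (bl πA πB f g s s' l q) := by
        rw [bl]
        unfold Wq
        rw [List.map_cons, List.prod_cons]
      rw [hW, wd_cons, map_mul, map_mul, map_mul (Coprod.lift πA πB),
        map_mul (Coprod.lift πA πB), Coprod.lift_apply_inl, Coprod.lift_apply_inr,
        Coprod.lift_apply_inl, Coprod.lift_apply_inr, Equiv.Perm.mul_apply,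
        Equiv.Perm.mul_apply, ih y q, hB, hA]
      apply Prod.ext
      · simp only [map_mul, mul_assoc]
      · simp only [mul_assoc]

end Pool.Agent.Helper19.OF
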