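import Pool.Agent.Helper37.OF.St

/-!
# Project OF (MP_121524_al), module E2: free products of groups which are linear of degree two
-/

set_option autoImplicit false

namespace Pool.Agent.Helper19.OF

open Pool.Agent.Helper37.OF Monoid Pool.Agent.Helper4.FS Polynomial Matrix

universe u v w x

theorem e2_map_wd {A B C D : Type*} [Group A] [Group B] [Group C] [Group D]
    (α : A →* C) (β : B →* D) (L : List (A × B)) :
    Coprod.map α β (wd L) = wd (L.map fun p => (α p.1, β p.2)) := by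
  induction L with
  | nil => rw [wd_nil, map_one, List.map_nil, wd_nil]
  | cons p L ih =>
    rw [wd_cons, map_mul, map_mul, ih, List.map_cons, wd_cons, Coprod.map_apply_inl,
      Coprod.map_apply_inr]

/-- Words with nontrivial letters are not killed. -/
theorem e2_word {k : Type w} [Field k] {D : Type v} [CommRing D] [IsDomain D] (κ : k →+* D)
    (x0 z0 : D)
    (hx0 : ∀ a b c : k, (a ≠ 0 ∨ b ≠ 0 ∨ c ≠ 0) → κ a + κ b * x0 - κ c * x0 ^ 2 ≠ 0)
    (hz0 : ∀ a b c : k, (a ≠ 0 ∨ b ≠ 0 ∨ c ≠ 0) → κ a + κ b * z0 - κ c * z0 ^ 2 ≠ 0)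
    (L : List (P2 k × P2 k)) (hL : L ≠ []) (hl : ∀ p ∈ L, p.1 ≠ 1 ∧ p.2 ≠ 1)
    (h1 : Ps ((Polynomial.C : D →+* D[X]).comp κ) (ProjGenLinGroup.mk (cm (C x0) X (C z0)))
      (wd L) = 1) : False := by
  set s := Function.surjInv (ProjGenLinGroup.mk_surjective (n := Fin 2) (R := k)) with hs
  have hsm : ∀ a : P2 k, (ProjGenLinGroup.mk (s a) : P2 k) = a :=
    Function.surjInv_eq (ProjGenLinGroup.mk_surjective (n := Fin 2) (R := k))
  set L1 : List (G2 k × G2 k) := L.map (fun p => (s p.1, s p.2)) with hL1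
  have hL01 : L1.map (fun p => ((ProjGenLinGroup.mk p.1 : P2 k), (ProjGenLinGroup.mk p.2 : P2 k)))
      = L := by
    rw [hL1, List.map_map]
    conv_rhs => rw [← List.map_id L]
    apply List.map_congr_left
    intro p _
    simp [hsm]
  rw [← hL01, ps_word, conj_eq_one_iff, ProjGenLinGroup.mk_eq_one, mem_cen] at h1
  have hL2 : L1.map (cl κ x0 z0) ≠ [] := by
    intro h
    rw [List.map_eq_nil_iff, hL1, List.map_eq_nil_iff] at h
    exact hL h
  have hb := bd_nl (L1.map (cl κ x0 z0))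
  obtain ⟨h2, h3⟩ := kl_entries (L1.map (cl κ x0 z0)) hL2
  have h4 : kl (L1.map (cl κ x0 z0)) 0 0 = 0 := by
    rw [← (hb 0 0).2, h1.2.2, (hb 1 1).2, h2 1]
  rw [h3] at h4
  have h5 : ((L1.map (cl κ x0 z0)).map fun p =>
      -((p.1 : Matrix (Fin 2) (Fin 2) D) 0 1 * (p.2 : Matrix (Fin 2) (Fin 2) D) 0 1)).prod ≠ 0 := by
    apply List.prod_ne_zero
    intro hmem
    rw [List.mem_map] at hmem
    obtain ⟨p, hp, hp0⟩ := hmem
    rw [List.mem_map] at hp
    obtain ⟨p', hp', rfl⟩ := hp
    rw [hL1, List.mem_map] at hp'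
    obtain ⟨p'', hp'', rfl⟩ := hp'
    obtain ⟨k1, k2⟩ := hl p'' hp''
    rw [← hsm p''.1, Ne, ProjGenLinGroup.mk_eq_one, mem_cen] at k1
    rw [← hsm p''.2, Ne, ProjGenLinGroup.mk_eq_one, mem_cen] at k2
    rw [cl_fst, cl_snd, neg_eq_zero, mul_eq_zero] at hp0
    rcases hp0 with hp0 | hp0
    · refine hx0 _ _ _ ?_ hp0
      by_contra hcon
      push Not at hcon
      obtain ⟨i1, i2, i3⟩ := hcon
      exact k1 ⟨i1, i3, sub_eq_zero.mp i2⟩
    · refine hz0 _ _ _ ?_ hp0
      by_contra hcon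
      push Not at hcon
      obtain ⟨i1, i2, i3⟩ := hcon
      exact k2 ⟨i1, i3, (sub_eq_zero.mp i2).symm⟩
  exact h5 h4

theorem e2_gen {k : Type w} [Field k] {D : Type w} [CommRing D] [IsDomain D] (κ : k →+* D)
    (x0 z0 : D)
    (hx0 : ∀ a b c : k, (a ≠ 0 ∨ b ≠ 0 ∨ c ≠ 0) → κ a + κ b * x0 - κ c * x0 ^ 2 ≠ 0)
    (hz0 : ∀ a b c : k, (a ≠ 0 ∨ b ≠ 0 ∨ c ≠ 0) → κ a + κ b * z0 - κ c * z0 ^ 2 ≠ 0)
    {A : Type u} {B : Type v} [Group A] [Group B] (α : A →* P2 k) (β : B →* P2 k)
    (hα : Function.Injective α) (hβ : Function.Injective β) :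
    ∃ (k' : Type w) (_ : Field k') (φ : Coprod A B →* P2 k') (ψ : P2 k →* P2 k'),
      Function.Injective φ ∧ Function.Injective ψ := by
  have hιi : Function.Injective ((Polynomial.C : D →+* D[X]).comp κ) :=
    ((Polynomial.C : D →+* D[X]).comp κ).injective
  have hpi : Function.Injective (pm ((Polynomial.C : D →+* D[X]).comp κ)) := pm_inj _ hιi
  have hinj : Function.Injective ((Ps ((Polynomial.C : D →+* D[X]).comp κ)
      (ProjGenLinGroup.mk (cm (C x0) X (C z0)))).comp (Coprod.map α β)) := by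
    rw [injective_iff_map_eq_one]
    intro r hr
    by_contra hne
    have hconj : ∀ r' : Coprod A B, IsConj r r' → (Ps ((Polynomial.C : D →+* D[X]).comp κ)
        (ProjGenLinGroup.mk (cm (C x0) X (C z0)))) (Coprod.map α β r') = 1 := by
      intro r' h
      have h2 := ((Ps ((Polynomial.C : D →+* D[X]).comp κ)
        (ProjGenLinGroup.mk (cm (C x0) X (C z0)))).comp (Coprod.map α β)).map_isConj h
      rw [hr, isConj_one_right] at h2
      exact h2
    by_cases h1 : ∃ c, IsConj r (Coprod.inl c)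
    · obtain ⟨c, hc⟩ := h1
      have h2 := hconj _ hc
      rw [Coprod.map_apply_inl, ps_inl] at h2
      have h3 : α c = 1 := hpi (by rw [h2, map_one])
      have h4 : c = 1 := hα (by rw [h3, map_one])
      rw [h4, map_one, isConj_one_left] at hc
      exact hne hc
    by_cases h2 : ∃ c, IsConj r (Coprod.inr c)
    · obtain ⟨c, hc⟩ := h2
      have h2 := hconj _ hc
      rw [Coprod.map_apply_inr, ps_inr, conj_eq_one_iff] at h2
      have h3 : β c = 1 := hpi (by rw [h2, map_one])
      have h4 : c = 1 := hβ (by rw [h3, map_one])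
      rw [h4, map_one, isConj_one_left] at hc
      exact hne hc
    push Not at h1 h2
    obtain ⟨L, hL, hl, hc⟩ := exists_reduced r h1 h2
    have h3 := hconj _ hc
    rw [e2_map_wd] at h3
    refine e2_word κ x0 z0 hx0 hz0 (L.map fun p => (α p.1, β p.2)) ?_ ?_ h3
    · intro h; exact hL (List.map_eq_nil_iff.mp h)
    · intro p hp
      rw [List.mem_map] at hp
      obtain ⟨p', hp', rfl⟩ := hp
      obtain ⟨k1, k2⟩ := hl p' hp'
      exact ⟨fun h => k1 (hα (by rw [map_one]; exact h)),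
        fun h => k2 (hβ (by rw [map_one]; exact h))⟩
  have hfr : Function.Injective (pm (algebraMap D[X] (FractionRing D[X]))) :=
    pm_inj _ (IsFractionRing.injective _ _)
  exact ⟨FractionRing D[X], inferInstance,
    (pm (algebraMap D[X] (FractionRing D[X]))).comp
      ((Ps ((Polynomial.C : D →+* D[X]).comp κ)
        (ProjGenLinGroup.mk (cm (C x0) X (C z0)))).comp (Coprod.map α β)),
    (pm (algebraMap D[X] (FractionRing D[X]))).comp
      (pm ((Polynomial.C : D →+* D[X]).comp κ)),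
    hfr.comp hinj, hfr.comp hpi⟩

theorem hE2 : StE2.{u, v, w} := by
  intro k _ A B _ _ α β hα hβ
  refine e2_gen ((Polynomial.C : k[X] →+* k[X][X]).comp (Polynomial.C : k →+* k[X]))
    (C X) X ?_ ?_ α β hα hβ
  · intro a b c h h5
    apply coef3 a b c h
    have h6 : ((Polynomial.C : k[X] →+* k[X][X]) (C a + C b * X - C c * X ^ 2)) = 0 := by
      rw [← h5]
      simp
    exact Polynomial.C_eq_zero.mp h6
  · intro a b c h
    apply coef3
    rcases h with h | h | h
    · left; exact fun h' => h (Polynomial.C_eq_zero.mp h')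
    · right; left; exact fun h' => h (Polynomial.C_eq_zero.mp h')
    · right; right; exact fun h' => h (Polynomial.C_eq_zero.mp h')

end Pool.Agent.Helper19.OF
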